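import Mathlib
import Pool.Agent.KS6_16.NM.Plane
import Pool.Agent.KS6_16.NM.Neg

/-!
# For which `(d, p)` is the logarithm of the naive mirror map non-negative?

The data are `p` groups of vectors `v_{i1}, …, v_{iq_i}` in `ℤ^d`, `Δ` is the Minkowski sum of the
convex hulls of `0` and the groups; the data are Fano if `0` is the only lattice point in the
interior of `Δ`. The question is whether all coefficients of `φ_{ij} / φ₀` are non-negative.

**Theorem.** If `d ≤ 2` or `p = 1`, they are, for all Fano data. If `d ≥ 3` and `p ≥ 2`, they are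
not: there are Fano data and an index `(i, j)` with infinitely many negative coefficients, which are
exponentially large.

The proof of the positive half rests on a criterion (`Pool/Agent/KS6_16/NM/Pos.lean`). Let `U_l` be
the sum of the variables of the group `l`, `F = ∏_l 1 / (1 - U_l)` and `D = F / φ₀`. Then
`φ_a / φ₀` is the part of `L_a D` with exponents in `K₀`, where `L_a` has non-negative coefficients,
and `(1 - U_l) D` is supported on the exponents `k` for which `∑ k_b v_b` is a combination of the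
vectors outside the group `l`. So the coefficient of `D` at `k` is the sum of the coefficients at
`k - e_b`, `b` in the group `l`, unless `∑ k_b v_b` lies in the cone `C_l` of the vectors outside
the group `l`. Hence all coefficients of `D` are non-negative if the intersection of all `C_l` is
zero. For `p = 1` this is clear. For Fano data no non-zero vector of a group `l` lies in `C_l`, and in
the plane this forces the intersection of all `C_l` to be zero (`Pool/Agent/KS6_16/NM/Plane.lean`).
In dimension three the intersection can contain a line, as in the counterexamples.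
-/

open scoped Pointwise

namespace Pool.Agent.Results.MP_3570a5_nt.Classification

/-- The index set `I = {(i,j) : 1 ≤ i ≤ p, 1 ≤ j ≤ q_i}`. -/
abbrev Idx {p : ℕ} (q : Fin p → ℕ) : Type := (i : Fin p) × Fin (q i)

/-- The exponent `k` (with non-negative entries) lies in `K₀`: `∑ k_{ij} v_{ij} = 0`. -/
def InK0 {d p : ℕ} {q : Fin p → ℕ} (v : Idx q → Fin d → ℤ) (k : Idx q →₀ ℕ) : Prop :=
  ∑ a, (k a : ℤ) • v a = 0

/-- `C(k) = ∏_l (k_{l1} + ⋯ + k_{lq_l})! / (k_{l1}! ⋯ k_{lq_l}!)`. -/
def coefC {p : ℕ} {q : Fin p → ℕ} (k : Idx q →₀ ℕ) : ℚ :=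
  ∏ l, ((∑ j, k ⟨l, j⟩).factorial : ℚ) / ∏ j, ((k ⟨l, j⟩).factorial : ℚ)

open Classical in
/-- The series `φ₀ = ∑_{k ∈ K₀} C(k) z^k`, as an element of `ℚ[[z_{ij}]] ⊇ ℚ[[K₀]]`. -/
noncomputable def phi0 {d p : ℕ} {q : Fin p → ℕ} (v : Idx q → Fin d → ℤ) :
    MvPowerSeries (Idx q) ℚ :=
  fun k => if InK0 v k then coefC k else 0

open Classical in
/-- The series `φ_{ij} = ∑_{k ∈ K₀} C(k) (H(∑_m k_{im}) - H(k_{ij})) z^k`, for `a = (i,j)`. -/
noncomputable def phi {d p : ℕ} {q : Fin p → ℕ} (v : Idx q → Fin d → ℤ) (a : Idx q) :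
    MvPowerSeries (Idx q) ℚ :=
  fun k => if InK0 v k then coefC k * (harmonic (∑ m, k ⟨a.1, m⟩) - harmonic (k a)) else 0

/-- The logarithm `φ_{ij} / φ₀` of the `(i,j)` component of the naive mirror map. -/
noncomputable def logMirror {d p : ℕ} {q : Fin p → ℕ} (v : Idx q → Fin d → ℤ) (a : Idx q) :
    MvPowerSeries (Idx q) ℚ :=
  phi v a * (phi0 v)⁻¹

/-- The real vector with the same coordinates as an integer vector. -/
def toReal {d : ℕ} (x : Fin d → ℤ) : Fin d → ℝ := fun t => (x t : ℝ)

/-- The polytope `Δ = Δ₁ + ⋯ + Δ_p` (Minkowski sum), where `Δ_i` is the convex hull of `0` and the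
`v_{ij}`. -/
def poly {d p : ℕ} {q : Fin p → ℕ} (v : Idx q → Fin d → ℤ) : Set (Fin d → ℝ) :=
  ∑ i, convexHull ℝ (insert 0 (Set.range fun j => toReal (v ⟨i, j⟩)))

/-- The standing assumptions: `0` is in the interior of `Δ` and the `v_{ij}` span `ℤ^d`. -/
def Standing {d p : ℕ} {q : Fin p → ℕ} (v : Idx q → Fin d → ℤ) : Prop :=
  (0 : Fin d → ℝ) ∈ interior (poly v) ∧ Submodule.span ℤ (Set.range v) = ⊤

/-- The data are Fano: `0` is the only lattice point in the interior of `Δ`. -/
def Fano {d p : ℕ} {q : Fin p → ℕ} (v : Idx q → Fin d → ℤ) : Prop :=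
  ∀ x : Fin d → ℤ, toReal x ∈ interior (poly v) ↔ x = 0

/-- **The pairs `(d, p)` for which the answer is positive.** For `p ≥ 1`:
(1) if `d ≤ 2` or `p = 1`, then for all Fano data satisfying the standing assumptions all
coefficients of all `φ_{ij} / φ₀` are non-negative;
(2) if `d ≥ 3` and `p ≥ 2`, then there are Fano data satisfying the standing assumptions and an
index `(i, j)` such that for every `n` some coefficient of `φ_{ij} / φ₀` of total degree `4n + 8` is
at most `-4^(n+2)`. -/
theorem result (d p : ℕ) (hp : 1 ≤ p) :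
    ((d ≤ 2 ∨ p = 1) → ∀ (q : Fin p → ℕ) (v : Idx q → Fin d → ℤ), (∀ i, 1 ≤ q i) → Standing v →
      Fano v → ∀ (a : Idx q) (k : Idx q →₀ ℕ), 0 ≤ MvPowerSeries.coeff k (logMirror v a)) ∧
    (¬ (d ≤ 2 ∨ p = 1) → ∃ (q : Fin p → ℕ) (v : Idx q → Fin d → ℤ), (∀ i, 1 ≤ q i) ∧ Standing v ∧
      Fano v ∧ ∃ a : Idx q, ∀ n : ℕ, ∃ k : Idx q →₀ ℕ, InK0 v k ∧ ∑ b, k b = 4 * n + 8 ∧
        MvPowerSeries.coeff k (logMirror v a) ≤ -4 ^ (n + 2)) := by
  constructor
  · rintro (h | rfl) q v _ hS hF a k
    · exact KS6_16.NM.plane_nonneg h hp v hS hF a k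
    · exact Pool.Agent.Y136.MM.logMirror_nonneg v a k
  · intro h
    push Not at h
    exact KS6_16.NM.bad_all (d := d) (p := p) (by omega) (by omega)

end Pool.Agent.Results.MP_3570a5_nt.Classification
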